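import Pool.Agent.TH142.NU.Self

/-! Self-intersection of effective classes: subsets of the points. -/

namespace Pool.Agent.TH142.NU

open Finset

/-- restriction of very general points to a subset -/
theorem on_T {s : ℕ} {P : Fin s → Fin 2 → ℂ}
    (hind : AlgebraicIndependent ℚ (fun q : Fin s × Fin 2 => P q.1 q.2)) (T : Finset (Fin s)) :
    ∃ j : Fin T.card → Fin s,
      AlgebraicIndependent ℚ (fun q : Fin T.card × Fin 2 => P (j q.1) q.2) ∧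
      (∀ a, j a ∈ T) ∧ ∀ g : Fin s → ℝ, ∑ a, g (j a) = ∑ i ∈ T, g i := by
  classical
  let e : T ≃ Fin T.card := T.equivFin
  refine ⟨fun a => (e.symm a : T), ?_, fun a => (e.symm a).2, fun g => ?_⟩
  · let f : Fin T.card × Fin 2 → Fin s × Fin 2 := fun q => ((e.symm q.1 : T), q.2)
    have hf : Function.Injective f := by
      rintro ⟨a, b⟩ ⟨a', b'⟩ h
      have h1 : ((e.symm a : T) : Fin s) = (e.symm a' : T) := congrArg Prod.fst h
      have h2 : b = b' := congrArg Prod.snd h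
      have h3 := e.symm.injective (Subtype.ext h1)
      rw [h2, h3]
    exact hind.comp f hf
  · rw [← Finset.sum_coe_sort T g]
    exact Equiv.sum_comp e.symm (fun i : T => g i)

theorem var_eq {s : ℕ} (T : Finset (Fin s)) (μ : Fin s → ℕ) (hT : 0 < T.card) :
    ∑ i ∈ T, ((μ i : ℝ) - (∑ i ∈ T, (μ i : ℝ)) / T.card) ^ 2 =
      ∑ i ∈ T, (μ i : ℝ) ^ 2 - (∑ i ∈ T, (μ i : ℝ)) ^ 2 / T.card := by
  obtain ⟨S, hS⟩ : ∃ S, S = ∑ i ∈ T, (μ i : ℝ) := ⟨_, rfl⟩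
  have hn : (0 : ℝ) < T.card := by exact_mod_cast hT
  rw [← hS]
  have e5 : ∀ i ∈ T, ((μ i : ℝ) - S / T.card) ^ 2 =
      (μ i : ℝ) ^ 2 - 2 * (S / T.card) * (μ i : ℝ) + (S / T.card) ^ 2 := fun i _ => by ring
  rw [Finset.sum_congr rfl e5, Finset.sum_add_distrib, Finset.sum_sub_distrib, ← Finset.mul_sum,
    ← hS, Finset.sum_const, nsmul_eq_mul]
  field_simp
  ring

/-- the three bounds -/
theorem main {s : ℕ} {P : Fin s → Fin 2 → ℂ}
    (hind : AlgebraicIndependent ℚ (fun q : Fin s × Fin 2 => P q.1 q.2))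
    {d : ℕ} {μ : Fin s → ℕ} {F : MvPolynomial (Fin 3) ℂ} (hF : F ≠ 0) (hFd : F.IsHomogeneous d)
    (hm : ∀ i, F ∈ (Ideal.span ({MvPolynomial.X 0 - MvPolynomial.C (P i 0) * MvPolynomial.X 2,
          MvPolynomial.X 1 - MvPolynomial.C (P i 1) * MvPolynomial.X 2} :
            Set (MvPolynomial (Fin 3) ℂ))) ^ (μ i)) (T : Finset (Fin s)) (hT : 10 ≤ T.card) :
    (0 < ∑ i ∈ T, (μ i : ℝ) →
      - ∑ i ∈ T, ((μ i : ℝ) - (∑ i ∈ T, (μ i : ℝ)) / T.card) ^ 2 - ∑ i ∈ Tᶜ, (μ i : ℝ) ^ 2 <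
        (d : ℝ) ^ 2 - ∑ i, (μ i : ℝ) ^ 2) ∧
    (22 ≤ T.card →
      (T.card : ℝ) * ((T.card : ℝ) / 2 - 11 / 6 * √(T.card : ℝ) + 1) ≤ ∑ i ∈ T, (μ i : ℝ) →
      (1 - 11 / (3 * √(T.card : ℝ)) - 17 / (4 * (T.card : ℝ))) * ∑ i ∈ T, (μ i : ℝ) -
          ∑ i ∈ T, ((μ i : ℝ) - (∑ i ∈ T, (μ i : ℝ)) / T.card) ^ 2 - ∑ i ∈ Tᶜ, (μ i : ℝ) ^ 2 <
        (d : ℝ) ^ 2 - ∑ i, (μ i : ℝ) ^ 2) ∧
    (23 ≤ T.card → (∃ m : ℕ, 1 ≤ m ∧ ∀ i ∈ T, μ i = m ∨ μ i = m + 1) →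
      ∑ i ∈ T, (μ i : ℝ) ^ 2 < (d : ℝ) ^ 2) := by
  classical
  obtain ⟨j, hj, hjT, hsum⟩ := on_T hind T
  obtain ⟨S, hS⟩ : ∃ S, S = ∑ i ∈ T, (μ i : ℝ) := ⟨_, rfl⟩
  obtain ⟨r, hr⟩ : ∃ r, r = √(T.card : ℝ) := ⟨_, rfl⟩
  have hn10 : (10 : ℝ) ≤ T.card := by exact_mod_cast hT
  have hn0 : (0 : ℝ) < T.card := by linarith
  have hrr : r * r = T.card := by rw [hr]; exact Real.mul_self_sqrt hn0.le
  have hr0 : 0 < r := by rw [hr]; exact Real.sqrt_pos.2 hn0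
  have e6 : ∑ i, (μ i : ℝ) ^ 2 = ∑ i ∈ T, (μ i : ℝ) ^ 2 + ∑ i ∈ Tᶜ, (μ i : ℝ) ^ 2 :=
    (Finset.sum_add_sum_compl T _).symm
  have hmT : ∀ a, F ∈ (Ideal.span
      ({MvPolynomial.X 0 - MvPolynomial.C (P (j a) 0) * MvPolynomial.X 2,
          MvPolynomial.X 1 - MvPolynomial.C (P (j a) 1) * MvPolynomial.X 2} :
            Set (MvPolynomial (Fin 3) ℂ))) ^ (μ (j a)) := fun a => hm (j a)
  refine ⟨fun hpos => ?_, fun h22 hbig => ?_, fun h23 hex => ?_⟩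
  · rw [← hS] at hpos
    have h1 := nagata_strict (w := fun a => μ (j a)) (P := fun a => P (j a)) hT hj hF hFd hmT (by
      have : (0 : ℝ) < ((∑ a, μ (j a) : ℕ) : ℝ) := by
        push_cast
        rw [hsum (fun i => (μ i : ℝ)), ← hS]
        exact hpos
      exact_mod_cast this)
    push_cast at h1
    rw [hsum (fun i => (μ i : ℝ)), ← hS, ← hr] at h1
    have h2 : S ^ 2 < (T.card : ℝ) * (d : ℝ) ^ 2 := by
      have := pow_lt_pow_left₀ h1 hpos.le (by norm_num : 2 ≠ 0)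
      rw [mul_pow, pow_two r, hrr] at this
      exact this
    have h3 : S ^ 2 / T.card < (d : ℝ) ^ 2 := by
      rw [div_lt_iff₀ hn0]
      linarith
    rw [var_eq T μ (by omega), e6, ← hS]
    linarith
  · rw [← hS, ← hr] at hbig
    have h1 := Pool.Agent.TH885.NW.exp_degree (L := ℂ) hT (fun a => μ (j a)) (by
      rw [hsum (fun i => (μ i : ℝ)), ← hS, ← hr]
      exact hbig) (fun a => P (j a)) hj d F hF hFd hmT
    rw [hsum (fun i => (μ i : ℝ)), ← hS, ← hr] at h1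
    have hn22 : (22 : ℝ) ≤ T.card := by exact_mod_cast h22
    have hr22 : 4.69 ≤ r := by rw [hr]; exact Real.le_sqrt_of_sq_le (by norm_num; linarith)
    obtain ⟨E, hE⟩ : ∃ E, E = (T.card : ℝ) / 2 - 11 / 6 * r - 17 / 8 := ⟨_, rfl⟩
    have hE0 : 0 < E := by
      rw [hE, ← hrr]
      nlinarith
    have hS0 : 0 ≤ S := by
      rw [hS]; exact Finset.sum_nonneg fun i _ => Nat.cast_nonneg _
    have h2 : S + E ≤ r * d := by rw [hE]; linarith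
    have h3 : (S + E) ^ 2 ≤ (T.card : ℝ) * (d : ℝ) ^ 2 := by
      have := pow_le_pow_left₀ (by linarith) h2 2
      rw [mul_pow, pow_two r, hrr] at this
      exact this
    have h4 : (1 - 11 / (3 * r) - 17 / (4 * (T.card : ℝ))) = 2 * E / T.card := by
      rw [hE, ← hrr]
      field_simp
      ring
    have h5 : S ^ 2 / T.card + 2 * E / T.card * S < (d : ℝ) ^ 2 := by
      have e : S ^ 2 / T.card + 2 * E / T.card * S = (S ^ 2 + 2 * E * S) / T.card := by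
        field_simp
      rw [e, div_lt_iff₀ hn0]
      nlinarith [pow_pos hE0 2]
    rw [var_eq T μ (by omega), e6, ← hS, ← hr, h4]
    linarith
  · obtain ⟨m, hm1, hmm⟩ := hex
    have h1 := near_pos (L := ℂ) (w := fun a => μ (j a)) (P := fun a => P (j a)) h23 hm1
      (fun a => hmm _ (hjT a)) hj hF hFd hmT
    have h2 : ((∑ a, (μ (j a)) ^ 2 : ℕ) : ℝ) < ((d ^ 2 : ℕ) : ℝ) := by exact_mod_cast h1
    push_cast at h2
    rw [hsum (fun i => (μ i : ℝ) ^ 2)] at h2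
    exact h2

end Pool.Agent.TH142.NU
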